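import Pool.Agent.Y113.MT.WStm
import Mathlib.LinearAlgebra.Matrix.ToLinearEquiv

/-!
# Project MT (helper113): NF (helper730)
-/

set_option autoImplicit false

open Matrix

namespace Pool.Agent.Y730.MT

open Pool.Agent.Y113.MT

lemma NN_pow {F : Type} [Field F] {n : ℕ} (k : ℕ) (i j : Fin n) : (NN F n ^ k) i j = if (j : ℕ) = i + k then 1 else 0 := by
  induction k generalizing i j with
  | zero =>
    rw [pow_zero, Matrix.one_apply]
    by_cases h : i = j
    · subst h
      simp
    · rw [if_neg h, if_neg]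
      intro h1
      exact h (Fin.ext h1.symm)
  | succ k ih =>
    rw [pow_succ, Matrix.mul_apply]
    by_cases h : (j : ℕ) = i + (k + 1)
    · rw [if_pos h, Finset.sum_eq_single (⟨i + k, by have := j.2; omega⟩ : Fin n)]
      · rw [ih, if_pos rfl, one_mul]
        unfold NN
        rw [Matrix.of_apply, if_pos (by show (j : ℕ) = i + k + 1; omega)]
      · intro b _ hb
        rw [ih, if_neg, zero_mul]
        intro h1
        exact hb (Fin.ext h1)
      · intro h1
        exact absurd (Finset.mem_univ _) h1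
    · rw [if_neg h]
      refine Finset.sum_eq_zero fun b _ => ?_
      rw [ih]
      by_cases h1 : (b : ℕ) = i + k
      · have h2 : NN F n b j = 0 := if_neg fun h3 => h (by omega)
        rw [h2, mul_zero]
      · rw [if_neg h1, zero_mul]

lemma cqm {n : ℕ} (X Y : Matrix (Fin n) (Fin n) ℚ) : cq (X * Y) = cq X * cq Y := by
  ext i j
  show (((X * Y) i j : ℚ) : ℂ) = ∑ l, ((X i l : ℚ) : ℂ) * ((Y l j : ℚ) : ℂ)
  rw [Matrix.mul_apply]
  push_cast
  rfl

theorem nf : S_NF := by
  intro n C M q hC hq h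
  rcases Nat.eq_zero_or_pos n with hn | hn
  · subst hn
    refine ⟨1, by simp, ?_⟩
    ext i
    exact i.elim0
  have hCu : IsUnit C.det := isUnit_iff_ne_zero.2 hC
  have hpow : ∀ k : ℕ, C * cq (M ^ k) = q ^ k • (NN ℂ n ^ k * C) := by
    intro k
    induction k with
    | zero =>
      have h1 : cq (1 : Matrix (Fin n) (Fin n) ℚ) = 1 := by
        ext i j
        show (((1 : Matrix (Fin n) (Fin n) ℚ) i j : ℚ) : ℂ) = _
        rw [Matrix.one_apply, Matrix.one_apply]
        split_ifs <;> simp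
      rw [pow_zero, h1, pow_zero, pow_zero, one_smul, Matrix.mul_one, Matrix.one_mul]
    | succ k ih =>
      rw [pow_succ, cqm, ← Matrix.mul_assoc, ih, smul_mul_assoc, Matrix.mul_assoc, h, mul_smul_comm, smul_smul,
        ← Matrix.mul_assoc, ← pow_succ, ← pow_succ]
  have hNn : NN ℂ n ^ n = 0 := by
    ext i j
    rw [NN_pow, if_neg (by have := j.2; omega)]
    rfl
  have hMn : M ^ n = 0 := by
    have h1 := hpow n
    rw [hNn, Matrix.zero_mul, smul_zero] at h1
    have h2 : cq (M ^ n) = 0 := by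
      calc cq (M ^ n) = C⁻¹ * (C * cq (M ^ n)) := by rw [← Matrix.mul_assoc, Matrix.nonsing_inv_mul _ hCu, Matrix.one_mul]
        _ = 0 := by rw [h1, Matrix.mul_zero]
    ext i j
    have h3 : (((M ^ n) i j : ℚ) : ℂ) = 0 := congrFun (congrFun h2 i) j
    exact_mod_cast h3
  have hMn1 : M ^ (n - 1) ≠ 0 := by
    intro h0
    have h1 := hpow (n - 1)
    have h2 : cq (0 : Matrix (Fin n) (Fin n) ℚ) = 0 := by
      ext i j
      show ((0 : ℚ) : ℂ) = 0
      simp
    rw [h0, h2, Matrix.mul_zero] at h1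
    have h3 : NN ℂ n ^ (n - 1) * C = 0 := by
      rcases smul_eq_zero.1 h1.symm with h4 | h4
      · exact absurd h4 (pow_ne_zero _ hq)
      · exact h4
    have h4 : NN ℂ n ^ (n - 1) = 0 := by
      calc NN ℂ n ^ (n - 1) = NN ℂ n ^ (n - 1) * C * C⁻¹ := by
            rw [Matrix.mul_assoc, Matrix.mul_nonsing_inv _ hCu, Matrix.mul_one]
        _ = 0 := by rw [h3, Matrix.zero_mul]
    have h5 := congrFun (congrFun h4 (⟨0, hn⟩ : Fin n)) (⟨n - 1, by omega⟩ : Fin n)
    rw [NN_pow, if_pos (by simp)] at h5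
    exact one_ne_zero h5
  obtain ⟨i0, hi0⟩ : ∃ i0, (M ^ (n - 1)) i0 ≠ 0 := by
    by_contra hcon
    push Not at hcon
    exact hMn1 (funext hcon)
  let R : Matrix (Fin n) (Fin n) ℚ := Matrix.of fun i j => (M ^ (i : ℕ)) i0 j
  refine ⟨R, ?_, ?_⟩
  · intro hdet
    obtain ⟨v, hv, hvR⟩ := Matrix.exists_vecMul_eq_zero_iff.2 hdet
    have hex : ∃ k : ℕ, ∃ hk : k < n, v ⟨k, hk⟩ ≠ 0 := by
      by_contra hcon
      push Not at hcon
      exact hv (funext fun i => hcon i i.2)
    classical
    obtain ⟨hk, hvk⟩ := Nat.find_spec hex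
    set k := Nat.find hex with hkdef
    have hmin : ∀ l : Fin n, (l : ℕ) < k → v l = 0 := by
      intro l hl
      have h1 := Nat.find_min hex hl
      by_contra h2
      exact h1 ⟨l.2, h2⟩
    apply hi0
    funext j
    have h1 : ∑ l : Fin n, v l * (M ^ ((l : ℕ) + (n - 1 - k))) i0 j = 0 := by
      have h2 : ∀ l : Fin n, (M ^ ((l : ℕ) + (n - 1 - k))) i0 j = ∑ s, (M ^ (l : ℕ)) i0 s * (M ^ (n - 1 - k)) s j := by
        intro l
        rw [pow_add, Matrix.mul_apply]
      simp only [h2, Finset.mul_sum]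
      rw [Finset.sum_comm]
      refine Finset.sum_eq_zero fun s _ => ?_
      have h3 : ∑ l : Fin n, v l * (M ^ (l : ℕ)) i0 s = 0 := congrFun hvR s
      calc ∑ l : Fin n, v l * ((M ^ (l : ℕ)) i0 s * (M ^ (n - 1 - k)) s j) =
          (∑ l : Fin n, v l * (M ^ (l : ℕ)) i0 s) * (M ^ (n - 1 - k)) s j := by
            rw [Finset.sum_mul]
            exact Finset.sum_congr rfl fun l _ => by ring
        _ = 0 := by rw [h3, zero_mul]
    rw [Finset.sum_eq_single (⟨k, hk⟩ : Fin n)] at h1
    · have h2 : k + (n - 1 - k) = n - 1 := by omega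
      have h3 : v ⟨k, hk⟩ * (M ^ (n - 1)) i0 j = 0 := by
        rw [← h2]
        exact h1
      rcases mul_eq_zero.1 h3 with h4 | h4
      · exact absurd h4 hvk
      · exact h4
    · intro l _ hl
      rcases lt_trichotomy (l : ℕ) k with h2 | h2 | h2
      · rw [hmin l h2, zero_mul]
      · exact absurd (Fin.ext h2) hl
      · obtain ⟨r, hr⟩ := Nat.exists_eq_add_of_le (show n ≤ (l : ℕ) + (n - 1 - k) by omega)
        rw [hr, pow_add, hMn, Matrix.zero_mul, Matrix.zero_apply, mul_zero]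
    · intro h2
      exact absurd (Finset.mem_univ _) h2
  · ext i j
    have h1 : (R * M) i j = (M ^ ((i : ℕ) + 1)) i0 j := by
      rw [pow_succ, Matrix.mul_apply, Matrix.mul_apply]
      rfl
    rw [h1, Matrix.mul_apply]
    by_cases hi : (i : ℕ) + 1 < n
    · rw [Finset.sum_eq_single (⟨(i : ℕ) + 1, hi⟩ : Fin n)]
      · have h2 : NN ℚ n i ⟨(i : ℕ) + 1, hi⟩ = 1 := if_pos rfl
        rw [h2, one_mul]
        rfl
      · intro l _ hl
        have h2 : NN ℚ n i l = 0 := if_neg fun h3 => hl (Fin.ext h3)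
        rw [h2, zero_mul]
      · intro h2
        exact absurd (Finset.mem_univ _) h2
    · have hi2 : (i : ℕ) + 1 = n := by
        have := i.2
        omega
      rw [hi2, hMn, Matrix.zero_apply]
      symm
      refine Finset.sum_eq_zero fun l _ => ?_
      have h2 : NN ℚ n i l = 0 := if_neg (by have := l.2; omega)
      rw [h2, zero_mul]

end Pool.Agent.Y730.MT
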