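import Pool.Agent.Y113.MT.WStm
import Pool.Agent.Y113.MT.Bas

/-!
# Project MT (helper113): TD (helper730)
-/

set_option autoImplicit false

open Matrix

namespace Pool.Agent.Y730.MT

open Pool.Agent.Y113.MT

section
variable {F : Type} [Field F] {n : ℕ}

lemma mul_NN (X : Matrix (Fin n) (Fin n) F) (i j : Fin n) (j' : Fin n) (h : (j' : ℕ) = j + 1) : (X * NN F n) i j' = X i j := by
  rw [Matrix.mul_apply, Finset.sum_eq_single j]
  · have h2 : NN F n j j' = 1 := if_pos h
    rw [h2, mul_one]
  · intro b _ hb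
    have h2 : NN F n b j' = 0 := if_neg fun h3 => hb (Fin.ext (by omega))
    rw [h2, mul_zero]
  · intro h2
    exact absurd (Finset.mem_univ _) h2

lemma mul_NN0 (X : Matrix (Fin n) (Fin n) F) (i j' : Fin n) (h : (j' : ℕ) = 0) : (X * NN F n) i j' = 0 := by
  rw [Matrix.mul_apply]
  refine Finset.sum_eq_zero fun b _ => ?_
  have h2 : NN F n b j' = 0 := if_neg fun h3 => by omega
  rw [h2, mul_zero]

lemma NN_mul (X : Matrix (Fin n) (Fin n) F) (i i' j : Fin n) (h : (i' : ℕ) = i + 1) : (NN F n * X) i j = X i' j := by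
  rw [Matrix.mul_apply, Finset.sum_eq_single i']
  · have h2 : NN F n i i' = 1 := if_pos h
    rw [h2, one_mul]
  · intro b _ hb
    have h2 : NN F n i b = 0 := if_neg fun h3 => hb (Fin.ext (by omega))
    rw [h2, zero_mul]
  · intro h2
    exact absurd (Finset.mem_univ _) h2

/-- matrices which commute with the shift are Toeplitz -/
lemma toep {X : Matrix (Fin n) (Fin n) F} (h : X * NN F n = NN F n * X) : ∀ (k : ℕ) (i j i' j' : Fin n), (i' : ℕ) = i + k →
    (j' : ℕ) = j + k → X i' j' = X i j := by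
  intro k
  induction k with
  | zero =>
    intro i j i' j' h1 h2
    rw [show i' = i from Fin.ext (by omega), show j' = j from Fin.ext (by omega)]
  | succ k ih =>
    intro i j i' j' h1 h2
    have b1 := i'.2
    have b2 := j'.2
    have e1 := ih i j ⟨i + k, by omega⟩ ⟨j + k, by omega⟩ rfl rfl
    rw [← e1]
    have e2 := mul_NN X ⟨i + k, by omega⟩ ⟨j + k, by omega⟩ j' (by simp only; omega)
    have e3 := NN_mul X ⟨i + k, by omega⟩ i' j' (by simp only; omega)
    rw [← e2, ← e3, h]

lemma low {X : Matrix (Fin n) (Fin n) F} (h : X * NN F n = NN F n * X) {i j : Fin n} (hij : (j : ℕ) < i) : X i j = 0 := by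
  have b1 := i.2
  have e1 := toep h (j : ℕ) ⟨(i : ℕ) - j, by omega⟩ ⟨0, by omega⟩ i j (by simp only; omega) (by simp only; omega)
  rw [e1]
  have e3 := NN_mul X (⟨(i : ℕ) - j - 1, by omega⟩ : Fin n) ⟨(i : ℕ) - j, by omega⟩ ⟨0, by omega⟩ (by simp only; omega)
  rw [← e3, ← h]
  exact mul_NN0 X _ _ rfl

lemma up {X : Matrix (Fin n) (Fin n) F} (h : X * NN F n = NN F n * X) {i j z k : Fin n} (hz : (z : ℕ) = 0)
    (hk : (j : ℕ) = i + k) : X i j = X z k :=
  toep h (i : ℕ) z k i j (by omega) (by omega)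

end

theorem td' {F : Type} [Field F] [CharZero F] {n : ℕ} (hSS : SS F n * SS F n = -1) (hn0 : 0 < n) (D : Derivation ℤ F F)
    (T B : Matrix (Fin n) (Fin n) F) (a : F) (hT : T * NN F n = NN F n * T)
    (h00 : ∀ i j : Fin n, (i : ℕ) = 0 → (j : ℕ) = 0 → T i j = 1) (ha : a ≠ 0) (hB : T * B * Tᵀ = a • SS F n)
    (hBD : B.map D = 0) (hodd : ∀ i j : Fin n, (i : ℕ) = 0 → (j : ℕ) % 2 = 1 → D (T i j) = 0) : T.map D = 0 := by
  let z : Fin n := ⟨0, hn0⟩
  -- the twisted matrix
  let T' : Matrix (Fin n) (Fin n) F := Matrix.of fun i j => (-1) ^ ((i : ℕ) + j) * T i j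
  have hST : SS F n * Tᵀ = T' * SS F n := by
    ext i j
    rw [SS_mul, mul_SS, Matrix.transpose_apply]
    show (-1) ^ (i : ℕ) * T j (Fin.rev i) = (-1) ^ ((i : ℕ) + (Fin.rev j : Fin n)) * T i (Fin.rev j) * (-1) ^ ((Fin.rev j : Fin n) : ℕ)
    have h1 : T j (Fin.rev i) = T i (Fin.rev j) := by
      have bi := i.2
      have bj := j.2
      by_cases hij : (i : ℕ) + j + 1 ≤ n
      · rw [up hT (z := z) (k := ⟨n - 1 - i - j, by omega⟩) rfl (by rw [Fin.val_rev]; simp only; omega),
          up hT (i := i) (z := z) (k := ⟨n - 1 - i - j, by omega⟩) rfl (by rw [Fin.val_rev]; simp only; omega)]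
      · rw [low hT (by rw [Fin.val_rev]; omega), low hT (by rw [Fin.val_rev]; omega)]
    rw [h1, pow_add]
    have h2 := neg_one_sq' (F := F) ((Fin.rev j : Fin n) : ℕ)
    calc (-1 : F) ^ (i : ℕ) * T i (Fin.rev j) = (-1) ^ (i : ℕ) * T i (Fin.rev j) *
        ((-1) ^ ((Fin.rev j : Fin n) : ℕ) * (-1) ^ ((Fin.rev j : Fin n) : ℕ)) := by rw [h2, mul_one]
      _ = _ := by ring
  set V := B * SS F n with hV
  have hTT : Tᵀ = -(SS F n * (T' * SS F n)) := by
    rw [← hST, ← Matrix.mul_assoc, hSS, Matrix.neg_mul, Matrix.one_mul, neg_neg]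
  have h1 : T * (V * T') = -a • (1 : Matrix (Fin n) (Fin n) F) := by
    have e1 : T * B * Tᵀ * SS F n = -a • (1 : Matrix (Fin n) (Fin n) F) := by
      rw [hB, smul_mul_assoc, hSS, smul_neg, neg_smul]
    rw [← e1, hTT]
    have e2 : T * B * -(SS F n * (T' * SS F n)) * SS F n = -(T * B * (SS F n * (T' * (SS F n * SS F n)))) := by
      simp only [Matrix.mul_assoc, Matrix.mul_neg, Matrix.neg_mul]
    rw [e2, hSS, Matrix.mul_neg, Matrix.mul_one, Matrix.mul_neg, Matrix.mul_neg, neg_neg, hV]
    simp only [Matrix.mul_assoc]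
  set Q := T' * T with hQ
  have hna : -a ≠ 0 := neg_ne_zero.2 ha
  have h2 : V * Q = -a • (1 : Matrix (Fin n) (Fin n) F) := by
    have e1 : T * ((-a)⁻¹ • (V * T')) = 1 := by
      rw [mul_smul_comm, h1, smul_smul, inv_mul_cancel₀ hna, one_smul]
    have e2 : ((-a)⁻¹ • (V * T')) * T = 1 := mul_eq_one_comm.1 e1
    rw [smul_mul_assoc] at e2
    have e3 := congrArg (fun X => -a • X) e2
    simp only [smul_smul, mul_inv_cancel₀ hna, one_smul] at e3
    rw [hQ, ← Matrix.mul_assoc, e3]
  have h3 : Q * V = -a • (1 : Matrix (Fin n) (Fin n) F) := by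
    have e1 : V * ((-a)⁻¹ • Q) = 1 := by
      rw [mul_smul_comm, h2, smul_smul, inv_mul_cancel₀ hna, one_smul]
    have e2 : ((-a)⁻¹ • Q) * V = 1 := mul_eq_one_comm.1 e1
    rw [smul_mul_assoc] at e2
    have e3 := congrArg (fun X => -a • X) e2
    simp only [smul_smul, mul_inv_cancel₀ hna, one_smul] at e3
    exact e3
  have hSD : (SS F n).map D = 0 := by
    refine dmap_zero D fun i j => ?_
    rw [SS_apply]
    split_ifs
    · rcases neg_one_pow_eq_or F (i : ℕ) with h | h
      · rw [h, Derivation.map_one_eq_zero]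
      · rw [h, map_neg, Derivation.map_one_eq_zero, neg_zero]
    · exact map_zero D
  have hVD : V.map D = 0 := by
    rw [hV, dmap_mul, hBD, hSD, Matrix.zero_mul, Matrix.mul_zero, add_zero]
  have h1D : (1 : Matrix (Fin n) (Fin n) F).map D = 0 := by
    refine dmap_zero D fun i j => ?_
    rw [Matrix.one_apply]
    split_ifs
    · exact Derivation.map_one_eq_zero D
    · exact map_zero D
  have h4 : a • Q.map D = D a • Q := by
    have e1 := congrArg (fun X : Matrix (Fin n) (Fin n) F => X.map D) h2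
    simp only [dmap_mul, dmap_smul, hVD, h1D, Matrix.zero_mul, zero_add, smul_zero, add_zero, map_neg] at e1
    have e2 : Q * (V * Q.map D) = Q * (-D a • (1 : Matrix (Fin n) (Fin n) F)) := congrArg (fun X => Q * X) e1
    have e3 : Q * (V * Q.map D) = -(a • Q.map D) := by
      rw [← Matrix.mul_assoc, h3, smul_mul_assoc, Matrix.one_mul, neg_smul]
    have e4 : Q * (V * Q.map D) = -(D a • Q) := by
      rw [e2]
      rw [mul_smul_comm, Matrix.mul_one, neg_smul]
    exact neg_injective (e3.symm.trans e4)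
  have hz0 : T z z = 1 := h00 z z rfl rfl
  have hT'z : ∀ l : Fin n, T' z l = (-1) ^ (l : ℕ) * T z l := by
    intro l
    show (-1) ^ ((z : ℕ) + l) * T z l = _
    rw [show (z : ℕ) = 0 from rfl, zero_add]
  have hQ0 : Q z z = 1 := by
    rw [hQ, Matrix.mul_apply, Finset.sum_eq_single z]
    · rw [hT'z, hz0]
      simp [z]
    · intro l _ hl
      rw [low hT (i := l) (j := z), mul_zero]
      show 0 < (l : ℕ)
      exact Nat.pos_of_ne_zero fun h => hl (Fin.ext h)
    · intro h
      exact absurd (Finset.mem_univ _) h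
  have hDa : D a = 0 := by
    have e1 := congrFun (congrFun h4 z) z
    simp only [Matrix.smul_apply, Matrix.map_apply, hQ0, Derivation.map_one_eq_zero, smul_eq_mul, mul_one, mul_zero] at e1
    exact e1.symm
  have hQD : ∀ j : Fin n, D (Q z j) = 0 := by
    intro j
    have e1 := congrFun (congrFun h4 z) j
    simp only [Matrix.smul_apply, Matrix.map_apply, hDa, zero_smul, Matrix.zero_apply, smul_eq_mul, zero_mul] at e1
    exact (mul_eq_zero.1 e1).resolve_left ha
  -- induction
  have hmain : ∀ (k : ℕ) (hk : k < n), D (T z ⟨k, hk⟩) = 0 := by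
    intro k
    induction k using Nat.strong_induction_on with
    | _ k ih =>
      intro hk
      rcases Nat.even_or_odd k with hev | hod
      · rcases Nat.eq_zero_or_pos k with hk0 | hk0
        · subst hk0
          rw [show (⟨0, hk⟩ : Fin n) = z from rfl, hz0, Derivation.map_one_eq_zero]
        · have e1 := hQD ⟨k, hk⟩
          rw [hQ, Matrix.mul_apply, map_sum, ← Finset.add_sum_erase _ _ (Finset.mem_univ z),
            ← Finset.add_sum_erase _ _ (show (⟨k, hk⟩ : Fin n) ∈ Finset.univ.erase z from Finset.mem_erase.2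
              ⟨fun h => by have := congrArg Fin.val h; simp only [z] at this; omega, Finset.mem_univ _⟩)] at e1
          have e2 : ∑ l ∈ (Finset.univ.erase z).erase (⟨k, hk⟩ : Fin n), D (T' z l * T l ⟨k, hk⟩) = 0 := by
            refine Finset.sum_eq_zero fun l hl => ?_
            rw [Finset.mem_erase, Finset.mem_erase] at hl
            have l1 : (l : ℕ) ≠ k := fun h => hl.1 (Fin.ext h)
            have l2 : (l : ℕ) ≠ 0 := fun h => hl.2.1 (Fin.ext h)
            rcases lt_or_gt_of_ne l1 with l3 | l3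
            · have f1 : D (T z l) = 0 := ih l l3 l.2
              have f2 : D (T l ⟨k, hk⟩) = 0 := by
                rw [up hT (z := z) (k := ⟨k - l, by omega⟩) rfl (by simp only; omega)]
                exact ih (k - l) (by omega) _
              rw [Derivation.leibniz, f2, smul_zero, zero_add, hT'z]
              have f3 : D ((-1) ^ (l : ℕ) * T z l) = 0 := by
                rcases neg_one_pow_eq_or F (l : ℕ) with h | h
                · rw [h, one_mul, f1]
                · rw [h, neg_mul, one_mul, map_neg, f1, neg_zero]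
              rw [f3, smul_zero]
            · rw [low hT (i := l) (j := ⟨k, hk⟩) l3, mul_zero, map_zero]
          rw [e2, add_zero, hT'z, hT'z, hz0] at e1
          have f1 : T ⟨k, hk⟩ ⟨k, hk⟩ = 1 := by
            rw [up hT (z := z) (k := z) rfl (by simp only [z]; omega), hz0]
          rw [f1, hev.neg_one_pow] at e1
          simp only [z, pow_zero, one_mul, mul_one] at e1
          have f2 : (2 : F) * D (T z ⟨k, hk⟩) = 0 := by
            rw [two_mul]
            exact e1
          exact (mul_eq_zero.1 f2).resolve_left two_ne_zero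
      · exact hodd z ⟨k, hk⟩ rfl (Nat.odd_iff.1 hod)
  refine dmap_zero D fun i j => ?_
  by_cases hij : (j : ℕ) < i
  · rw [low hT hij, map_zero]
  · rw [up hT (z := z) (k := ⟨j - i, by have := j.2; omega⟩) rfl (by simp only; omega)]
    exact hmain _ _

theorem td : S_TD := by
  intro F _ _ m D T B a hT h00 ha hB hBD hodd
  rcases Nat.eq_zero_or_pos m with hm | hm
  · subst hm
    ext i
    exact absurd i.2 (by omega)
  exact td' (SS_sq m) (by omega) D T B a hT h00 ha hB hBD hodd

end Pool.Agent.Y730.MT
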