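import Pool.Agent.Y113.MT.WStm

/-!
# Project MT (helper113): CNT (helper730)
-/

set_option autoImplicit false

namespace Pool.Agent.Y730.MT

open Pool.Agent.Y113.MT

/-- covering by blocks -/
lemma cover (G e c H T : ℕ) (hG : 1 ≤ G) (hH : 1 ≤ H) (P : ℕ → Prop)
    (hP : ∀ t : ℕ, (H + 2) ^ e ≤ t → {u : ℕ | 1 ≤ u ∧ u ≤ H ∧ P (t - G * u)}.ncard ≤ c) :
    {t : ℕ | t ≤ T ∧ P t}.ncard ≤ (H + 2) ^ e + G * (T / (G * H) + 1) * c := by
  classical
  set b0 := (H + 2) ^ e with hb0
  let top : ℕ × ℕ → ℕ := fun q => b0 + q.1 + G * H * q.2 + G * H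
  let blk : ℕ × ℕ → Finset ℕ := fun q => ((Finset.Icc 1 H).filter fun u => P (top q - G * u)).image fun u => top q - G * u
  have hblk : ∀ q, (blk q).card ≤ c := by
    intro q
    refine Finset.card_image_le.trans ?_
    have h1 := hP (top q) (by
      show b0 ≤ b0 + q.1 + G * H * q.2 + G * H
      omega)
    refine le_trans (le_of_eq ?_) h1
    rw [← Set.ncard_coe_finset]
    congr 1
    ext u
    simp only [Finset.coe_filter, Finset.mem_Icc, Set.mem_ofPred_eq]
    tauto
  set I : Finset (ℕ × ℕ) := Finset.range G ×ˢ Finset.range (T / (G * H) + 1) with hI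
  have hsub : {t : ℕ | t ≤ T ∧ P t} ⊆ ((Finset.range b0 ∪ I.biUnion blk : Finset ℕ) : Set ℕ) := by
    rintro t ⟨htT, htP⟩
    rw [Finset.mem_coe, Finset.mem_union]
    by_cases ht : t < b0
    · exact Or.inl (Finset.mem_range.2 ht)
    · right
      push Not at ht
      rw [Finset.mem_biUnion]
      set w := t - b0 with hw
      set r := w % G with hr
      set k := w / G with hk
      have hwk : w = G * k + r := (Nat.div_add_mod w G).symm
      set v := k % H with hv
      set j := k / H with hj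
      have hkj : k = H * j + v := (Nat.div_add_mod k H).symm
      have hrG : r < G := Nat.mod_lt _ hG
      have hvH : v < H := Nat.mod_lt _ hH
      have hwe : w = G * H * j + G * v + r := by
        rw [hwk, hkj]
        ring
      refine ⟨(r, j), ?_, ?_⟩
      · rw [hI, Finset.mem_product]
        refine ⟨Finset.mem_range.2 hrG, Finset.mem_range.2 (Nat.lt_succ_of_le ?_)⟩
        rw [Nat.le_div_iff_mul_le (by positivity)]
        calc j * (G * H) = G * H * j := by ring
          _ ≤ w := by rw [hwe]; omega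
          _ ≤ T := by omega
      · show t ∈ ((Finset.Icc 1 H).filter fun u => P (top (r, j) - G * u)).image fun u => top (r, j) - G * u
        rw [Finset.mem_image]
        have htop : top (r, j) - G * (H - v) = t := by
          show b0 + r + G * H * j + G * H - G * (H - v) = t
          have e1 : G * (H - v) = G * H - G * v := Nat.mul_sub G H v
          have e2 : G * v ≤ G * H := Nat.mul_le_mul_left G hvH.le
          rw [e1]
          omega
        refine ⟨H - v, ?_, htop⟩
        rw [Finset.mem_filter, Finset.mem_Icc, htop]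
        exact ⟨⟨by omega, by omega⟩, htP⟩
  calc {t : ℕ | t ≤ T ∧ P t}.ncard ≤ ((Finset.range b0 ∪ I.biUnion blk : Finset ℕ) : Set ℕ).ncard :=
        Set.ncard_le_ncard hsub (Finset.finite_toSet _)
    _ = (Finset.range b0 ∪ I.biUnion blk).card := Set.ncard_coe_finset _
    _ ≤ (Finset.range b0).card + (I.biUnion blk).card := Finset.card_union_le _ _
    _ ≤ b0 + I.card * c := by
        rw [Finset.card_range]
        exact Nat.add_le_add_left (Finset.card_biUnion_le_card_mul _ _ _ fun q _ => hblk q) _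
    _ = _ := by rw [hI, Finset.card_product, Finset.card_range, Finset.card_range]

theorem cnt : S_CNT := by
  intro G E c hG
  set e := E + 1 with he
  set δ : ℝ := 1 / (2 * (e : ℝ)) with hδ
  have he0 : (0 : ℝ) < e := by
    rw [he]
    positivity
  have hδ0 : 0 < δ := by positivity
  have hδ1 : δ ≤ 1 / 2 := by
    rw [hδ, div_le_div_iff₀ (by positivity) (by norm_num)]
    have : (1 : ℝ) ≤ e := by
      rw [he]
      push_cast
      have : (0 : ℝ) ≤ E := Nat.cast_nonneg E
      linarith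
    linarith
  refine ⟨δ, (4 : ℝ) ^ (2 * e) + 1 + (1 + c * (4 + G)), hδ0, fun P hP T hT => ?_⟩
  have hTr : (1 : ℝ) ≤ T := by exact_mod_cast hT
  have hT0 : (0 : ℝ) < T := by linarith
  have hpw : (1 : ℝ) ≤ (T : ℝ) ^ (1 - δ) := Real.one_le_rpow hTr (by linarith)
  set x : ℝ := (T : ℝ) ^ δ with hx
  have hx1 : 1 ≤ x := Real.one_le_rpow hTr hδ0.le
  set L := ⌊x⌋₊ with hL
  have hLx : (L : ℝ) ≤ x := Nat.floor_le (by linarith)
  have hxL : x < L + 1 := Nat.lt_floor_add_one x
  have hx2e : x ^ (2 * e) = T := by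
    rw [hx, ← Real.rpow_natCast, ← Real.rpow_mul hT0.le, hδ]
    push_cast
    rw [one_div, inv_mul_cancel₀ (by positivity), Real.rpow_one]
  by_cases hL4 : L < 4
  · -- the trivial bound
    have h1 : {t : ℕ | t ≤ T ∧ P t}.ncard ≤ T + 1 := by
      calc {t : ℕ | t ≤ T ∧ P t}.ncard ≤ ((Finset.range (T + 1) : Finset ℕ) : Set ℕ).ncard := by
            refine Set.ncard_le_ncard (fun t ht => ?_) (Finset.finite_toSet _)
            rw [Finset.mem_coe, Finset.mem_range]
            exact Nat.lt_succ_of_le ht.1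
        _ = T + 1 := by rw [Set.ncard_coe_finset, Finset.card_range]
    have h2 : (T : ℝ) ≤ 4 ^ (2 * e) := by
      rw [← hx2e]
      refine pow_le_pow_left₀ (by linarith) ?_ _
      have : (L : ℝ) + 1 ≤ 4 := by exact_mod_cast hL4
      linarith
    have h3 : (({t : ℕ | t ≤ T ∧ P t}.ncard : ℕ) : ℝ) ≤ T + 1 := by exact_mod_cast h1
    calc (({t : ℕ | t ≤ T ∧ P t}.ncard : ℕ) : ℝ) ≤ T + 1 := h3
      _ ≤ (4 : ℝ) ^ (2 * e) + 1 + (1 + c * (4 + G)) := by
          have : (0 : ℝ) ≤ 1 + c * (4 + G) := by positivity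
          linarith
      _ = ((4 : ℝ) ^ (2 * e) + 1 + (1 + c * (4 + G))) * 1 := by ring
      _ ≤ _ := mul_le_mul_of_nonneg_left hpw (by positivity)
  · push Not at hL4
    have hH := cover G e c (L - 2) T hG (by omega) P (fun t ht => hP (L - 2) t (le_trans
      (Nat.pow_le_pow_right (by omega) (by omega)) ht))
    rw [show L - 2 + 2 = L by omega] at hH
    have hHr : (({t : ℕ | t ≤ T ∧ P t}.ncard : ℕ) : ℝ) ≤ (L : ℝ) ^ e + G * (((T / (G * (L - 2)) : ℕ) : ℝ) + 1) * c := by
      exact_mod_cast hH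
    have hGr : (1 : ℝ) ≤ G := by exact_mod_cast hG
    have hL4r : (4 : ℝ) ≤ L := by exact_mod_cast hL4
    have hLs : ((L - 2 : ℕ) : ℝ) = L - 2 := by
      rw [Nat.cast_sub (by omega)]
      norm_num
    have h1 : (L : ℝ) ^ e ≤ (T : ℝ) ^ (1 - δ) := by
      calc (L : ℝ) ^ e ≤ x ^ e := pow_le_pow_left₀ (by positivity) hLx _
        _ = (T : ℝ) ^ (1 / 2 : ℝ) := by
            rw [hx, ← Real.rpow_natCast, ← Real.rpow_mul hT0.le, hδ]
            congr 1
            field_simp
        _ ≤ _ := Real.rpow_le_rpow_of_exponent_le hTr (by linarith)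
    have h2 : (((T / (G * (L - 2)) : ℕ) : ℝ)) ≤ (T : ℝ) / (G * (L - 2)) := by
      refine Nat.cast_div_le.trans (le_of_eq ?_)
      rw [Nat.cast_mul, hLs]
    have h3 : (G : ℝ) * ((T : ℝ) / (G * (L - 2))) ≤ 4 * (T : ℝ) ^ (1 - δ) := by
      have e1 : (G : ℝ) * ((T : ℝ) / (G * (L - 2))) = T / (L - 2) := by
        field_simp
      rw [e1, Real.rpow_sub hT0, Real.rpow_one, ← hx]
      rw [div_le_iff₀ (by linarith), mul_comm (4 : ℝ), mul_assoc, div_mul_eq_mul_div, le_div_iff₀ (by linarith)]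
      refine mul_le_mul_of_nonneg_left ?_ hT0.le
      linarith
    have h4 : (G : ℝ) ≤ G * (T : ℝ) ^ (1 - δ) := by
      calc (G : ℝ) = G * 1 := (mul_one _).symm
        _ ≤ _ := mul_le_mul_of_nonneg_left hpw (by positivity)
    have h5 : (G : ℝ) * (((T / (G * (L - 2)) : ℕ) : ℝ) + 1) ≤ (4 + G) * (T : ℝ) ^ (1 - δ) := by
      rw [mul_add, mul_one]
      have := mul_le_mul_of_nonneg_left h2 (show (0 : ℝ) ≤ G by positivity)
      linarith
    have h6 := mul_le_mul_of_nonneg_right h5 (show (0 : ℝ) ≤ c by positivity)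
    have h7 : (0 : ℝ) ≤ (4 : ℝ) ^ (2 * e) + 1 := by positivity
    have h8 := mul_nonneg h7 (show (0 : ℝ) ≤ (T : ℝ) ^ (1 - δ) by positivity)
    calc _ ≤ _ := hHr
      _ ≤ (T : ℝ) ^ (1 - δ) + (4 + G) * (T : ℝ) ^ (1 - δ) * c := add_le_add h1 h6
      _ ≤ _ := by
        have e1 : ((4 : ℝ) ^ (2 * e) + 1 + (1 + c * (4 + G))) * (T : ℝ) ^ (1 - δ) = ((4 : ℝ) ^ (2 * e) + 1) * (T : ℝ) ^ (1 - δ) +
          ((T : ℝ) ^ (1 - δ) + (4 + G) * (T : ℝ) ^ (1 - δ) * c) := by ring
        rw [e1]
        linarith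

end Pool.Agent.Y730.MT
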